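import Pool.Agent.L7h87.AV.Pair
import Pool.Agent.TP975.RP.Avg

/-!
# Project AP, part T2: the sieve model is replaced by its local version at a fixed level
-/

set_option autoImplicit false

namespace Pool.Agent.L7h87.AV

open Finset
open Pool.Agent.H373R2.T7
open Pool.Agent.TP975.RP (pw mem_pw prod_pz_split Yf sum_pairs_Yf pow_lin Yf_one_le sum_pw_inv_sq)
open Pool.Agent.L7h24.AV (hq Gw Box arg)

/-- Mertens: the inverse of the density is at most a constant times the logarithm -/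
theorem VL : ∃ C : ℝ, 1 ≤ C ∧ ∀ z : ℕ, 3 ≤ z → (Vz z)⁻¹ ≤ C * Real.log z := by
  obtain ⟨C, hC⟩ := Pool.Agent.Helper256.KM.mertens_inv
  refine ⟨max 1 (Real.exp (C + 2)), le_max_left _ _, fun z hz => ?_⟩
  have hz3 : (3 : ℝ) ≤ z := by exact_mod_cast hz
  have hlz : 0 < Real.log z := Real.log_pos (by linarith)
  have h2 : ∀ p ∈ pz z, (1 - 1 / (p : ℝ))⁻¹ ≤ Real.exp (1 / (p : ℝ) + 2 * (1 / (p : ℝ) ^ 2)) := by
    intro p hp
    have hp2 : (2 : ℝ) ≤ p := by exact_mod_cast (mem_pz.1 hp).2.two_le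
    have hu : 1 / (p : ℝ) ≤ 1 / 2 := one_div_le_one_div_of_le (by norm_num) hp2
    have hu0 : 0 < 1 / (p : ℝ) := by positivity
    have e : 1 / (p : ℝ) ^ 2 = (1 / (p : ℝ)) ^ 2 := by rw [one_div_pow]
    rw [e]
    set u := 1 / (p : ℝ) with hud
    have h3 : 0 < 1 - u := by linarith
    have h4 : (1 - u)⁻¹ ≤ 1 + (u + 2 * u ^ 2) := by
      rw [inv_le_iff_one_le_mul₀ h3]
      nlinarith [mul_nonneg hu0.le (mul_nonneg hu0.le (by linarith : (0 : ℝ) ≤ 1 - 2 * u))]
    refine h4.trans ?_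
    rw [add_comm]
    exact Real.add_one_le_exp _
  have h3 : (Vz z)⁻¹ ≤ Real.exp (∑ p ∈ pz z, (1 / (p : ℝ) + 2 * (1 / (p : ℝ) ^ 2))) := by
    unfold Vz
    rw [← prod_inv_distrib, Real.exp_sum]
    apply prod_le_prod
    · intro p hp
      exact (inv_pos.2 (one_sub_pos (mem_pz.1 hp).2)).le
    · exact h2
  have h4 : ∑ p ∈ pz z, 1 / (p : ℝ) ≤ Real.log (Real.log z) + C := by
    have := (abs_le.1 (hC z hz)).2
    unfold pz
    linarith
  have h5 : ∑ p ∈ pz z, 1 / (p : ℝ) ^ 2 ≤ 1 := by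
    have h6 := sum_pw_inv_sq 1 z le_rfl
    have e : pz z = pw 1 z := by
      ext p
      rw [mem_pz, mem_pw]
      constructor
      · rintro ⟨h1, h2⟩
        exact ⟨h2.one_lt, h1, h2⟩
      · rintro ⟨_, h1, h2⟩
        exact ⟨h1, h2⟩
    rw [e]
    simpa using h6
  calc (Vz z)⁻¹ ≤ _ := h3
    _ ≤ Real.exp (Real.log (Real.log z) + (C + 2)) := by
        apply Real.exp_le_exp.2
        rw [sum_add_distrib, ← mul_sum]
        linarith
    _ = Real.exp (C + 2) * Real.log z := by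
        rw [Real.exp_add, Real.exp_log hlz, mul_comm]
    _ ≤ _ := mul_le_mul_of_nonneg_right (le_max_right _ _) hlz.le

lemma Vz_inv_one (z : ℕ) : 1 ≤ (Vz z)⁻¹ := (one_le_inv₀ (Vz_pos z)).2 (Vz_le_one z)

lemma Vz_mono {y z : ℕ} (h : y ≤ z) : (Vz y)⁻¹ ≤ (Vz z)⁻¹ := by
  have h1 : Vz z = Vz y * ∏ p ∈ pw y z, (1 - 1 / (p : ℝ)) := by
    unfold Vz
    exact prod_pz_split y z h _
  have h2 : ∏ p ∈ pw y z, (1 - 1 / (p : ℝ)) ≤ 1 := by
    apply prod_le_one
    · intro p hp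
      exact (one_sub_pos (mem_pw.1 hp).2.2).le
    · intro p _
      have : 0 ≤ 1 / (p : ℝ) := by positivity
      linarith
  apply inv_anti₀ (Vz_pos z)
  rw [h1]
  exact mul_le_of_le_one_right (Vz_pos y).le h2

lemma hq_nonneg {q : ℕ} (h : q.Prime) (x : ℤ) : 0 ≤ hq q x := by
  have h1 := one_sub_pos h
  have h2 : (2 : ℝ) ≤ q := by exact_mod_cast h.two_le
  have h3 : 0 ≤ 1 - 2 / (q : ℝ) := by
    rw [sub_nonneg, div_le_one (by linarith)]; exact h2
  unfold hq
  split_ifs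
  · exact (inv_pos.2 h1).le
  · exact mul_nonneg h3 (sq_nonneg _)

lemma hq_le {q : ℕ} (h : q.Prime) (x : ℤ) : hq q x ≤ (1 - 1 / (q : ℝ))⁻¹ := by
  have h1 := one_sub_pos h
  have h2 : (2 : ℝ) ≤ q := by exact_mod_cast h.two_le
  unfold hq
  split_ifs
  · exact le_rfl
  · have h3 : 1 - 2 / (q : ℝ) ≤ 1 - 1 / (q : ℝ) := by
      have : 1 / (q : ℝ) ≤ 2 / (q : ℝ) := by
        apply div_le_div_of_nonneg_right (by norm_num) (by linarith)
      linarith
    calc (1 - 2 / (q : ℝ)) * ((1 - 1 / (q : ℝ))⁻¹) ^ 2 ≤ (1 - 1 / (q : ℝ)) * ((1 - 1 / (q : ℝ))⁻¹) ^ 2 :=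
          mul_le_mul_of_nonneg_right h3 (sq_nonneg _)
      _ = (1 - 1 / (q : ℝ))⁻¹ := by
          rw [sq, ← mul_assoc, mul_inv_cancel₀ h1.ne', one_mul]

lemma hq_ge {q : ℕ} (h : q.Prime) (x : ℤ) : 1 - 4 / (q : ℝ) ^ 2 ≤ hq q x := by
  have h1 := one_sub_pos h
  have h2 : (2 : ℝ) ≤ q := by exact_mod_cast h.two_le
  have hu0 : 0 < 1 / (q : ℝ) := by positivity
  have hu1 : 1 / (q : ℝ) ≤ 1 / 2 := one_div_le_one_div_of_le (by norm_num) h2
  have e4 : 4 / (q : ℝ) ^ 2 = 4 * (1 / (q : ℝ)) ^ 2 := by rw [one_div_pow]; ring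
  have e2 : 2 / (q : ℝ) = 2 * (1 / (q : ℝ)) := by ring
  unfold hq
  rw [e4, e2]
  set u := 1 / (q : ℝ) with hu
  split_ifs
  · have : 1 ≤ (1 - u)⁻¹ := (one_le_inv₀ h1).2 (by linarith)
    nlinarith [sq_nonneg u]
  · rw [inv_pow, ← div_eq_mul_inv, le_div_iff₀ (by positivity)]
    have hs : 0 ≤ u ^ 2 := sq_nonneg u
    nlinarith [mul_nonneg hs (by nlinarith [hu0, hu1] : (0 : ℝ) ≤ 4 * (1 - u) ^ 2 - 1)]

lemma Gw_nonneg (w : ℕ) (r σ : ℤ) : 0 ≤ Gw w r σ :=
  prod_nonneg fun _ h => hq_nonneg (mem_pz.1 (mem_filter.1 h).1).2 σ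

lemma Gw_le (w : ℕ) (r σ : ℤ) : Gw w r σ ≤ (Vz w)⁻¹ := by
  classical
  unfold Gw Vz
  rw [← prod_inv_distrib]
  calc _ ≤ ∏ q ∈ (pz w).filter (fun q : ℕ => (q : ℤ) ∣ r), (1 - 1 / (q : ℝ))⁻¹ := by
        apply prod_le_prod
        · intro q h
          exact hq_nonneg (mem_pz.1 (mem_filter.1 h).1).2 σ
        · intro q h
          exact hq_le (mem_pz.1 (mem_filter.1 h).1).2 σ
    _ ≤ _ := by
        apply prod_le_prod_of_subset_of_one_le (filter_subset _ _)
        · intro q h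
          exact (inv_pos.2 (one_sub_pos (mem_pz.1 (mem_filter.1 h).1).2)).le
        · intro q h _
          have h1 := one_sub_pos (mem_pz.1 h).2
          refine (one_le_inv₀ h1).2 ?_
          have : 0 ≤ 1 / (q : ℝ) := by positivity
          linarith

lemma prod_diff {ι : Type*} (s : Finset ι) (x y : ι → ℝ) (D η : ℝ) (hD : 0 < D) (hη : 0 ≤ η)
    (hx : ∀ i ∈ s, |x i| ≤ D) (hy : ∀ i ∈ s, |y i| ≤ D) (h : ∀ i ∈ s, |x i - y i| ≤ η) :
    |∏ i ∈ s, x i - ∏ i ∈ s, y i| * D ≤ s.card * η * D ^ s.card := by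
  classical
  induction s using Finset.induction_on with
  | empty => simp
  | insert a s ha ih =>
    have i1 := ih (fun i hi => hx i (mem_insert_of_mem hi)) (fun i hi => hy i (mem_insert_of_mem hi))
      (fun i hi => h i (mem_insert_of_mem hi))
    have hY : |∏ i ∈ s, y i| ≤ D ^ s.card := by
      rw [abs_prod]
      calc _ ≤ ∏ _i ∈ s, D := prod_le_prod (fun _ _ => abs_nonneg _) (fun i hi => hy i (mem_insert_of_mem hi))
        _ = _ := by rw [prod_const]
    rw [prod_insert ha, prod_insert ha, card_insert_of_notMem ha]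
    have e : x a * ∏ i ∈ s, x i - y a * ∏ i ∈ s, y i =
        x a * (∏ i ∈ s, x i - ∏ i ∈ s, y i) + (x a - y a) * ∏ i ∈ s, y i := by ring
    have hxa := hx a (mem_insert_self _ _)
    have ha' := h a (mem_insert_self _ _)
    rw [e]
    calc _ ≤ (|x a| * |∏ i ∈ s, x i - ∏ i ∈ s, y i| + |x a - y a| * |∏ i ∈ s, y i|) * D := by
          apply mul_le_mul_of_nonneg_right _ hD.le
          refine (abs_add_le _ _).trans ?_
          rw [abs_mul, abs_mul]
      _ = |x a| * (|∏ i ∈ s, x i - ∏ i ∈ s, y i| * D) + |x a - y a| * |∏ i ∈ s, y i| * D := by ring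
      _ ≤ D * (s.card * η * D ^ s.card) + η * D ^ s.card * D := by
          apply add_le_add
          · exact mul_le_mul hxa i1 (mul_nonneg (abs_nonneg _) hD.le) hD.le
          · apply mul_le_mul_of_nonneg_right _ hD.le
            exact mul_le_mul ha' hY (abs_nonneg _) hη
      _ = _ := by push_cast; ring

lemma prod_low {ι : Type*} (s : Finset ι) (x : ι → ℝ) (h0 : ∀ i ∈ s, 0 ≤ x i) (h1 : ∀ i ∈ s, x i ≤ 1) :
    1 - ∑ i ∈ s, x i ≤ ∏ i ∈ s, (1 - x i) := by
  classical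
  induction s using Finset.induction_on with
  | empty => simp
  | insert a s ha ih =>
    have i1 := ih (fun i hi => h0 i (mem_insert_of_mem hi)) (fun i hi => h1 i (mem_insert_of_mem hi))
    have b0 := h0 a (mem_insert_self _ _)
    have b1 := h1 a (mem_insert_self _ _)
    have hs : 0 ≤ ∑ i ∈ s, x i := sum_nonneg fun i hi => h0 i (mem_insert_of_mem hi)
    rw [prod_insert ha, sum_insert ha]
    have : (1 - x a) * (1 - ∑ i ∈ s, x i) ≤ (1 - x a) * ∏ i ∈ s, (1 - x i) :=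
      mul_le_mul_of_nonneg_left i1 (by linarith)
    nlinarith [mul_nonneg b0 hs]

/-- the primes above `y` do not matter on average -/
lemma loc_diff (k y z : ℕ) (hy : 2 ≤ y) (hyz : y ≤ z) (r : ℤ) (σ : Fin k → ℤ) :
    |∏ j, Gw z r (σ j) - ∏ j, Gw y r (σ j)| ≤
      ((Vz y)⁻¹) ^ k * ((Yf (3 ^ k - 1) y z r - 1) + 4 * k / y) := by
  classical
  set R := (pw y z).filter (fun q : ℕ => (q : ℤ) ∣ r) with hR
  have hRp : ∀ q ∈ R, q.Prime := fun q h => (mem_pw.1 (mem_filter.1 h).1).2.2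
  have hspl : ∀ τ : ℤ, Gw z r τ = Gw y r τ * ∏ q ∈ R, hq q τ := by
    intro τ
    unfold Gw
    rw [hR, prod_filter, prod_filter, prod_filter]
    exact prod_pz_split y z hyz _
  rw [prod_congr rfl (fun j _ => hspl (σ j)), prod_mul_distrib]
  have hP0 : 0 ≤ ∏ j, Gw y r (σ j) := prod_nonneg fun j _ => Gw_nonneg y r (σ j)
  have hP1 : ∏ j, Gw y r (σ j) ≤ ((Vz y)⁻¹) ^ k := by
    calc _ ≤ ∏ _j : Fin k, (Vz y)⁻¹ := prod_le_prod (fun j _ => Gw_nonneg y r (σ j)) (fun j _ => Gw_le y r (σ j))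
      _ = _ := by rw [prod_const, card_univ, Fintype.card_fin]
  set H := ∏ j, ∏ q ∈ R, hq q (σ j) with hH
  have hyr : (2 : ℝ) ≤ y := by exact_mod_cast hy
  have hHup : H ≤ Yf (3 ^ k - 1) y z r := by
    rw [hH, prod_comm]
    have h1 : ∀ q ∈ R, ∏ j, hq q (σ j) ≤ 1 + ((3 : ℝ) ^ k - 1) * 1 / q := by
      intro q hq'
      have hqp := hRp q hq'
      have hq2 : (2 : ℝ) ≤ q := by exact_mod_cast hqp.two_le
      calc ∏ j, hq q (σ j) ≤ ∏ _j : Fin k, (1 - 1 / (q : ℝ))⁻¹ :=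
            prod_le_prod (fun j _ => hq_nonneg hqp (σ j)) (fun j _ => hq_le hqp (σ j))
        _ = ((1 - 1 / (q : ℝ))⁻¹) ^ k := by rw [prod_const, card_univ, Fintype.card_fin]
        _ ≤ (1 + 2 * (1 / (q : ℝ))) ^ k := by
            apply pow_le_pow_left₀ (inv_pos.2 (one_sub_pos hqp)).le
            have hu : 1 / (q : ℝ) ≤ 1 / 2 := one_div_le_one_div_of_le (by norm_num) hq2
            have hu0 : 0 < 1 / (q : ℝ) := by positivity
            rw [inv_le_iff_one_le_mul₀ (one_sub_pos hqp)]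
            nlinarith
        _ ≤ 1 + ((1 + 2 : ℝ) ^ k - 1) * (1 / (q : ℝ)) := by
            apply pow_lin 2 (1 / (q : ℝ)) (by norm_num) (by positivity)
            rw [div_le_one (by linarith)]
            linarith
        _ = _ := by norm_num; ring
    have h2 : ∏ q ∈ R, ∏ j, hq q (σ j) ≤ ∏ q ∈ R, (1 + ((3 : ℝ) ^ k - 1) * 1 / q) :=
      prod_le_prod (fun q hq' => prod_nonneg fun j _ => hq_nonneg (hRp q hq') (σ j)) h1
    refine h2.trans (le_of_eq ?_)
    unfold Yf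
    rw [hR, prod_filter]
    apply prod_congr rfl
    intro q _
    by_cases hd : (q : ℤ) ∣ r
    · rw [if_pos hd, if_pos hd]
    · rw [if_neg hd, if_neg hd]; simp
  have hHlow : 1 - 4 * k / y ≤ H := by
    rw [hH, ← prod_product']
    have h1 : ∏ x ∈ (univ : Finset (Fin k)) ×ˢ R, (1 - 4 / (x.2 : ℝ) ^ 2) ≤
        ∏ x ∈ (univ : Finset (Fin k)) ×ˢ R, hq x.2 (σ x.1) := by
      apply prod_le_prod
      · intro x hx
        rw [mem_product] at hx
        have : (2 : ℝ) ≤ x.2 := by exact_mod_cast (hRp x.2 hx.2).two_le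
        rw [sub_nonneg, div_le_one (by positivity)]
        nlinarith
      · intro x hx
        rw [mem_product] at hx
        exact hq_ge (hRp x.2 hx.2) (σ x.1)
    refine le_trans ?_ h1
    refine le_trans ?_ (prod_low _ (fun x : Fin k × ℕ => 4 / (x.2 : ℝ) ^ 2) (fun x _ => by positivity) ?_)
    · rw [sum_product]
      simp only [sum_const, card_univ, Fintype.card_fin, nsmul_eq_mul]
      have h3 : ∑ q ∈ R, 4 / (q : ℝ) ^ 2 ≤ 4 * (1 / (y : ℝ)) := by
        calc ∑ q ∈ R, 4 / (q : ℝ) ^ 2 = 4 * ∑ q ∈ R, 1 / (q : ℝ) ^ 2 := by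
              rw [mul_sum]
              exact sum_congr rfl fun q _ => by ring
          _ ≤ 4 * (1 / (y : ℝ)) := by
              apply mul_le_mul_of_nonneg_left _ (by norm_num)
              refine le_trans ?_ (sum_pw_inv_sq y z (by omega))
              exact sum_le_sum_of_subset_of_nonneg (filter_subset _ _) (fun _ _ _ => by positivity)
      have h4 := mul_le_mul_of_nonneg_left h3 (Nat.cast_nonneg (α := ℝ) k)
      have e : (4 : ℝ) * k / y = k * (4 * (1 / (y : ℝ))) := by ring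
      rw [e]
      linarith
    · intro x hx
      rw [mem_product] at hx
      have : (2 : ℝ) ≤ x.2 := by exact_mod_cast (hRp x.2 hx.2).two_le
      rw [div_le_one (by positivity)]
      nlinarith
  have e : (∏ j, Gw y r (σ j)) * H - ∏ j, Gw y r (σ j) = (∏ j, Gw y r (σ j)) * (H - 1) := by ring
  rw [e, abs_mul, abs_of_nonneg hP0]
  apply mul_le_mul hP1 _ (abs_nonneg _) (pow_nonneg (inv_pos.2 (Vz_pos y)).le _)
  have h3k : (0 : ℝ) ≤ 3 ^ k - 1 := by
    have : (1 : ℝ) ≤ 3 ^ k := one_le_pow₀ (by norm_num)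
    linarith
  have hY := Yf_one_le (3 ^ k - 1) h3k y z r
  have hk0 : (0 : ℝ) ≤ 4 * k / y := by positivity
  rw [abs_le]
  constructor <;> linarith

lemma sum_box {k A B : ℕ} (f : Fin k → ℕ × ℕ → ℝ) :
    ∑ v ∈ Box k A B, ∏ j, f j (v j) = ∏ j, ∑ a ∈ Icc 1 A, ∑ b ∈ Icc 1 B, f j (a, b) := by
  unfold Box
  rw [← prod_univ_sum]
  apply prod_congr rfl
  intro j _
  rw [sum_product]

/-- the correlation of two weights along two lines -/
noncomputable def PP (A B w w' t t' i i' : ℕ) : ℝ :=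
  ∑ a ∈ Icc 1 A, ∑ b ∈ Icc 1 B, lamz w (t + a * i + b) * lamz w' (t' + a * i' + b)

lemma PP_nonneg (A B w w' t t' i i' : ℕ) : 0 ≤ PP A B w w' t t' i i' :=
  sum_nonneg fun _ _ => sum_nonneg fun _ _ => mul_nonneg (lamz_nonneg _ _) (lamz_nonneg _ _)

lemma corr {k A B : ℕ} (s : Fin k → ℕ → ℕ) (w w' i i' : ℕ) :
    ∑ v ∈ Box k A B, (∏ j, lamz w (arg s v j i)) * (∏ j, lamz w' (arg s v j i')) =
      ∏ j, PP A B w w' (s j i) (s j i') i i' := by
  unfold PP
  rw [← sum_box (fun j x => lamz w (s j i + x.1 * i + x.2) * lamz w' (s j i' + x.1 * i' + x.2))]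
  apply sum_congr rfl
  intro v _
  rw [← prod_mul_distrib]
  rfl

/-- the deterministic inequality -/
theorem main_ineq (k k' y z A B N : ℕ) (hk : k = k' + 1) (hy : 2 ≤ y) (h3y : (3 : ℝ) ^ k ≤ y) (hyz : y ≤ z)
    (hA : 1 ≤ A) (hB : 1 ≤ B) (s : Fin k → ℕ → ℕ) (I : Finset ℕ) (hI : I ⊆ Icc 1 N) (M η : ℝ) (hM : (Vz z)⁻¹ ≤ M)
    (hη0 : 0 ≤ η) (hη1 : η ≤ 1)
    (hP : ∀ w w' : ℕ, (w = y ∨ w = z) → (w' = y ∨ w' = z) → ∀ t t' i i' : ℕ, i ≠ i' →
      |PP A B w w' t t' i i' - A * B * Gw (min w w') ((i : ℤ) - i') ((t : ℤ) - t')| ≤ A * B * η)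
    (hd : ∀ w : ℕ, (w = y ∨ w = z) → ∀ t i : ℕ, PP A B w w t t i i ≤ A * B * (2 * M)) :
    ∑ v ∈ Box k A B, (∑ i ∈ I, (∏ j, lamz z (arg s v j i) - ∏ j, lamz y (arg s v j i))) ^ 2 ≤
      (A * B : ℝ) ^ k * (N * (2 * (2 * M) ^ k) +
        N ^ 2 * (4 * ((k' + 1) * η * (2 * M) ^ k')) +
        N ^ 2 * (((Vz y)⁻¹) ^ k * (8 * ((3 ^ k - 1) / y) + 4 * k / y))) := by
  classical
  have hkr : (k : ℝ) = k' + 1 := by rw [hk]; push_cast; rfl
  set SS : ℕ → ℕ → ℕ → ℕ → ℝ := fun w w' i i' => ∏ j, PP A B w w' (s j i) (s j i') i i' with hSS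
  have hSS0 : ∀ w w' i i', 0 ≤ SS w w' i i' := fun w w' i i' => prod_nonneg fun j _ => PP_nonneg _ _ _ _ _ _ _ _
  have hexp : ∑ v ∈ Box k A B, (∑ i ∈ I, (∏ j, lamz z (arg s v j i) - ∏ j, lamz y (arg s v j i))) ^ 2 =
      ∑ i ∈ I, ∑ i' ∈ I, (SS z z i i' - SS z y i i' - SS y z i i' + SS y y i i') := by
    have h1 : ∀ v ∈ Box k A B, (∑ i ∈ I, (∏ j, lamz z (arg s v j i) - ∏ j, lamz y (arg s v j i))) ^ 2 =
        ∑ i ∈ I, ∑ i' ∈ I, ((∏ j, lamz z (arg s v j i)) * (∏ j, lamz z (arg s v j i')) -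
          (∏ j, lamz z (arg s v j i)) * (∏ j, lamz y (arg s v j i')) -
          (∏ j, lamz y (arg s v j i)) * (∏ j, lamz z (arg s v j i')) +
          (∏ j, lamz y (arg s v j i)) * (∏ j, lamz y (arg s v j i'))) := by
      intro v _
      rw [sq, sum_mul_sum]
      apply sum_congr rfl
      intro i _
      apply sum_congr rfl
      intro i' _
      ring
    rw [sum_congr rfl h1, sum_comm]
    apply sum_congr rfl
    intro i _
    rw [sum_comm]
    apply sum_congr rfl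
    intro i' _
    rw [sum_add_distrib, sum_sub_distrib, sum_sub_distrib, corr, corr, corr, corr]
  rw [hexp]
  have hAB : (0 : ℝ) < A * B := by
    have h1 : (1 : ℝ) ≤ A := by exact_mod_cast hA
    have h2 : (1 : ℝ) ≤ B := by exact_mod_cast hB
    positivity
  have hM1 : 1 ≤ M := (Vz_inv_one z).trans hM
  have hD : (0 : ℝ) < 2 * M := by linarith
  -- diagonal terms
  have hdiag : ∀ w : ℕ, (w = y ∨ w = z) → ∀ i : ℕ, SS w w i i ≤ (A * B : ℝ) ^ k * (2 * M) ^ k := by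
    intro w hw i
    rw [← mul_pow]
    calc SS w w i i ≤ ∏ _j : Fin k, ((A * B : ℝ) * (2 * M)) :=
          prod_le_prod (fun j _ => PP_nonneg _ _ _ _ _ _ _ _) (fun j _ => hd w hw (s j i) i)
      _ = _ := by rw [prod_const, card_univ, Fintype.card_fin]
  -- off diagonal terms
  have hG : ∀ w w' : ℕ, (w = y ∨ w = z) → (w' = y ∨ w' = z) → ∀ r σ : ℤ, Gw (min w w') r σ ≤ M := by
    intro w w' hw hw' r σ
    refine (Gw_le _ _ _).trans ((Vz_mono ?_).trans hM)
    rcases hw with rfl | rfl <;> rcases hw' with rfl | rfl <;> simp [hyz]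
  have hoff : ∀ w w' : ℕ, (w = y ∨ w = z) → (w' = y ∨ w' = z) → ∀ i i' : ℕ, i ≠ i' →
      |SS w w' i i' - (A * B : ℝ) ^ k * ∏ j, Gw (min w w') ((i : ℤ) - i') ((s j i : ℤ) - s j i')| ≤
        (A * B : ℝ) ^ k * ((k' + 1) * η * (2 * M) ^ k') := by
    intro w w' hw hw' i i' hii
    have h1 := prod_diff (univ : Finset (Fin k)) (fun j => PP A B w w' (s j i) (s j i') i i')
      (fun j => A * B * Gw (min w w') ((i : ℤ) - i') ((s j i : ℤ) - s j i')) (A * B * (2 * M)) (A * B * η)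
      (mul_pos hAB hD) (mul_nonneg hAB.le hη0) (fun j _ => by
        rw [abs_of_nonneg (PP_nonneg _ _ _ _ _ _ _ _)]
        have h2 := (abs_le.1 (hP w w' hw hw' (s j i) (s j i') i i' hii)).2
        have h3 := hG w w' hw hw' ((i : ℤ) - i') ((s j i : ℤ) - s j i')
        have h4 : (A * B : ℝ) * Gw (min w w') ((i : ℤ) - i') ((s j i : ℤ) - s j i') ≤ A * B * M :=
          mul_le_mul_of_nonneg_left h3 hAB.le
        have h5 : (A * B : ℝ) * η ≤ A * B * M := mul_le_mul_of_nonneg_left (hη1.trans hM1) hAB.le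
        linarith) (fun j _ => by
        rw [abs_of_nonneg (mul_nonneg hAB.le (Gw_nonneg _ _ _))]
        apply mul_le_mul_of_nonneg_left _ hAB.le
        have h3 := hG w w' hw hw' ((i : ℤ) - i') ((s j i : ℤ) - s j i')
        linarith) (fun j _ => hP w w' hw hw' (s j i) (s j i') i i' hii)
    have e1 : ∏ j, ((A * B : ℝ) * Gw (min w w') ((i : ℤ) - i') ((s j i : ℤ) - s j i')) =
        (A * B : ℝ) ^ k * ∏ j, Gw (min w w') ((i : ℤ) - i') ((s j i : ℤ) - s j i') := by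
      rw [prod_mul_distrib, prod_const, card_univ, Fintype.card_fin]
    rw [e1, card_univ, Fintype.card_fin] at h1
    have e2 : (k : ℝ) * ((A * B : ℝ) * η) * ((A * B : ℝ) * (2 * M)) ^ k =
        ((A * B : ℝ) ^ k * ((k' + 1) * η * (2 * M) ^ k')) * ((A * B : ℝ) * (2 * M)) := by
      rw [hkr, hk]
      rw [mul_pow, pow_succ (2 * M)]
      ring
    rw [e2] at h1
    exact le_of_mul_le_mul_right h1 (mul_pos hAB hD)
  set er := (A * B : ℝ) ^ k * ((k' + 1) * η * (2 * M) ^ k') with her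
  set P := (A * B : ℝ) ^ k with hPd
  have hP0 : 0 ≤ P := pow_nonneg hAB.le _
  have her0 : 0 ≤ er := by positivity
  -- the bound for each pair
  set F : ℕ → ℕ → ℝ := fun i i' => (if (i : ℤ) - i' + 0 = 0 then 0 else Yf (3 ^ k - 1) y z ((i : ℤ) - i' + 0) - 1) with hF
  have h3k : (0 : ℝ) ≤ 3 ^ k - 1 := by
    have : (1 : ℝ) ≤ 3 ^ k := one_le_pow₀ (by norm_num)
    linarith
  have hF0 : ∀ i i', 0 ≤ F i i' := by
    intro i i'
    simp only [hF]
    split_ifs
    · exact le_rfl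
    · have := Yf_one_le (3 ^ k - 1) h3k y z ((i : ℤ) - i' + 0)
      linarith
  set V := ((Vz y)⁻¹) ^ k with hV
  have hV0 : 0 ≤ V := pow_nonneg (inv_pos.2 (Vz_pos y)).le _
  have hpair : ∀ i ∈ I, ∀ i' ∈ I, SS z z i i' - SS z y i i' - SS y z i i' + SS y y i i' ≤
      (if i = i' then P * (2 * (2 * M) ^ k) else 0) + (4 * er + P * (V * (F i i' + 4 * k / y))) := by
    intro i _ i' _
    by_cases hii : i = i'
    · subst hii
      rw [if_pos rfl]
      have h1 := hdiag z (Or.inr rfl) i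
      have h2 := hdiag y (Or.inl rfl) i
      have h3 := hSS0 z y i i
      have h4 := hSS0 y z i i
      have h5 : 0 ≤ P * (V * (F i i + 4 * k / y)) := by
        have := hF0 i i
        positivity
      linarith
    · rw [if_neg hii, zero_add]
      have a1 := (abs_le.1 (hoff z z (Or.inr rfl) (Or.inr rfl) i i' hii)).2
      have a2 := (abs_le.1 (hoff z y (Or.inr rfl) (Or.inl rfl) i i' hii)).1
      have a3 := (abs_le.1 (hoff y z (Or.inl rfl) (Or.inr rfl) i i' hii)).1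
      have a4 := (abs_le.1 (hoff y y (Or.inl rfl) (Or.inl rfl) i i' hii)).2
      rw [min_self] at a1 a4
      rw [min_eq_right hyz] at a2
      rw [min_eq_left hyz] at a3
      have b := le_of_abs_le (loc_diff k y z hy hyz ((i : ℤ) - i') (fun j => (s j i : ℤ) - s j i'))
      have hFe : F i i' = Yf (3 ^ k - 1) y z ((i : ℤ) - i') - 1 := by
        simp only [hF, add_zero]
        rw [if_neg (by omega)]
      rw [← hFe] at b
      have b' := mul_le_mul_of_nonneg_left b hP0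
      rw [mul_sub] at b'
      linarith
  refine (sum_le_sum fun i hi => sum_le_sum fun i' hi' => hpair i hi i' hi').trans ?_
  have hcard : (I.card : ℝ) ≤ N := by
    have := card_le_card hI
    rw [Nat.card_Icc, Nat.add_sub_cancel] at this
    exact_mod_cast this
  have hc0 : (0 : ℝ) ≤ I.card := Nat.cast_nonneg _
  have g1 : ∑ i ∈ I, ∑ i' ∈ I, (if i = i' then P * (2 * (2 * M) ^ k) else 0) ≤ N * (P * (2 * (2 * M) ^ k)) := by
    have h1 : ∀ i ∈ I, ∑ i' ∈ I, (if i = i' then P * (2 * (2 * M) ^ k) else 0) = P * (2 * (2 * M) ^ k) := by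
      intro i hi
      rw [sum_ite_eq, if_pos hi]
    rw [sum_congr rfl h1, sum_const, nsmul_eq_mul]
    exact mul_le_mul_of_nonneg_right hcard (by positivity)
  have g2 : ∑ _i ∈ I, ∑ _i' ∈ I, 4 * er ≤ N ^ 2 * (4 * er) := by
    simp only [sum_const, nsmul_eq_mul]
    rw [← mul_assoc, ← sq]
    exact mul_le_mul_of_nonneg_right (pow_le_pow_left₀ hc0 hcard 2) (by positivity)
  have g3 : ∑ i ∈ I, ∑ i' ∈ I, P * (V * (F i i' + 4 * k / y)) ≤
      P * (V * (N ^ 2 * (8 * ((3 ^ k - 1) / y)) + N ^ 2 * (4 * k / y))) := by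
    have h1 : ∑ i ∈ I, ∑ i' ∈ I, P * (V * (F i i' + 4 * k / y)) ≤
        ∑ i ∈ Icc 1 N, ∑ i' ∈ Icc 1 N, P * (V * (F i i' + 4 * k / y)) := by
      have hnn : ∀ i i', 0 ≤ P * (V * (F i i' + 4 * k / y)) := by
        intro i i'
        have := hF0 i i'
        positivity
      calc _ ≤ ∑ i ∈ I, ∑ i' ∈ Icc 1 N, P * (V * (F i i' + 4 * k / y)) :=
            sum_le_sum fun i _ => sum_le_sum_of_subset_of_nonneg hI fun _ _ _ => hnn _ _
        _ ≤ _ := sum_le_sum_of_subset_of_nonneg hI fun i _ _ => sum_nonneg fun _ _ => hnn _ _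
    refine h1.trans ?_
    simp only [← mul_sum, sum_add_distrib, sum_const, Nat.card_Icc, Nat.add_sub_cancel, nsmul_eq_mul]
    apply mul_le_mul_of_nonneg_left _ hP0
    apply mul_le_mul_of_nonneg_left _ hV0
    have h2 := sum_pairs_Yf (3 ^ k - 1) h3k y z N (by omega) (by linarith) 0 (by simp)
    have e : (N : ℝ) * (N * (4 * k / y)) = N ^ 2 * (4 * k / y) := by ring
    rw [e]
    linarith
  have e0 : ∑ i ∈ I, ∑ i' ∈ I, ((if i = i' then P * (2 * (2 * M) ^ k) else 0) +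
      (4 * er + P * (V * (F i i' + 4 * k / y)))) =
      ∑ i ∈ I, ∑ i' ∈ I, (if i = i' then P * (2 * (2 * M) ^ k) else 0) +
      (∑ _i ∈ I, ∑ _i' ∈ I, 4 * er + ∑ i ∈ I, ∑ i' ∈ I, P * (V * (F i i' + 4 * k / y))) := by
    simp only [sum_add_distrib]
  rw [e0]
  refine (add_le_add g1 (add_le_add g2 g3)).trans (le_of_eq ?_)
  rw [her]
  ring

lemma ev_pow (k : ℕ) (Q : ℝ) (hQ : 0 < Q) : ∀ᶠ x : ℝ in Filter.atTop, Real.log x ^ k * Q ≤ x := by
  have h3 := (Real.isLittleO_pow_log_id_atTop (n := k)).bound (show (0 : ℝ) < 1 / Q by positivity)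
  filter_upwards [h3, Filter.eventually_ge_atTop 1] with x h5 h6
  simp only [id] at h5
  have h7 : 0 ≤ Real.log x := Real.log_nonneg h6
  rw [Real.norm_of_nonneg (by positivity), Real.norm_of_nonneg (by linarith), one_div, inv_mul_eq_div,
    le_div_iff₀ hQ] at h5
  exact h5

theorem s_T2' : Pool.Agent.L7h24.AV.S_T2 := by
  intro k E hk ε hε
  obtain ⟨k', hkk⟩ : ∃ k', k = k' + 1 := ⟨k - 1, by omega⟩
  obtain ⟨C, hC1, hC⟩ := VL
  have hkr : (1 : ℝ) ≤ k := by exact_mod_cast hk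
  -- the level `y`
  set Qy : ℝ := C ^ k * (8 * 3 ^ k + 4 * k) * (3 / ε) with hQy
  have hCk : 0 < C ^ k := by positivity
  have hQy0 : 0 < Qy := by positivity
  have hy1 : ∀ᶠ y : ℕ in Filter.atTop, Real.log (y : ℝ) ^ k * Qy ≤ y :=
    tendsto_natCast_atTop_atTop.eventually (ev_pow k Qy hQy0)
  obtain ⟨y0, hy0⟩ := Filter.eventually_atTop.1 hy1
  refine ⟨max y0 (max 3 (3 ^ k)), fun y hy => ?_⟩
  have hyy0 : y0 ≤ y := le_trans (le_max_left _ _) hy
  have hy3 : 3 ≤ y := le_trans (le_trans (le_max_left _ _) (le_max_right _ _)) hy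
  have hy3k : 3 ^ k ≤ y := le_trans (le_trans (le_max_right _ _) (le_max_right _ _)) hy
  have hyr : (3 : ℝ) ≤ y := by exact_mod_cast hy3
  have hyp : ((Vz y)⁻¹) ^ k * (8 * ((3 ^ k - 1) / y) + 4 * k / y) ≤ ε / 3 := by
    have h1 := hy0 y hyy0
    have h2 := hC y hy3
    have h3 : ((Vz y)⁻¹) ^ k ≤ C ^ k * Real.log y ^ k := by
      rw [← mul_pow]
      exact pow_le_pow_left₀ (inv_pos.2 (Vz_pos y)).le h2 k
    have h4 : (8 : ℝ) * ((3 ^ k - 1) / y) + 4 * k / y ≤ (8 * 3 ^ k + 4 * k) / y := by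
      have e : (8 * 3 ^ k + 4 * k : ℝ) / y - (8 * ((3 ^ k - 1) / y) + 4 * k / y) = 8 / y := by ring
      have : 0 ≤ 8 / (y : ℝ) := by positivity
      linarith
    have h5 : (0 : ℝ) ≤ 8 * ((3 ^ k - 1) / y) + 4 * k / y := by
      have : (1 : ℝ) ≤ 3 ^ k := one_le_pow₀ (by norm_num)
      have h6 : (0 : ℝ) ≤ (3 ^ k - 1) / y := div_nonneg (by linarith) (by linarith)
      positivity
    have hl0 : 0 ≤ Real.log (y : ℝ) := Real.log_nonneg (by linarith)
    calc _ ≤ (C ^ k * Real.log y ^ k) * ((8 * 3 ^ k + 4 * k) / y) :=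
          mul_le_mul h3 h4 h5 (by positivity)
      _ = (Real.log y ^ k * Qy) / y * (ε / 3) := by
          rw [hQy]
          field_simp
      _ ≤ 1 * (ε / 3) := by
          apply mul_le_mul_of_nonneg_right _ (by positivity)
          rw [div_le_one (by linarith)]
          exact h1
      _ = _ := one_mul _
  -- the size of `B`
  set c : ℝ := C * (E + 1) with hc
  have hE0 : (0 : ℝ) ≤ E := Nat.cast_nonneg _
  have hc1 : 1 ≤ c := by rw [hc]; nlinarith
  have hck : 1 ≤ c ^ k := one_le_pow₀ hc1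
  set Q : ℝ := c ^ k * (24 * k * 2 ^ k / ε + 2) with hQ
  have hQ0 : 0 < Q := by positivity
  have hlim : Filter.Tendsto (fun N : ℕ => Real.log (N : ℝ)) Filter.atTop Filter.atTop :=
    Real.tendsto_log_atTop.comp (tendsto_natCast_atTop_atTop (R := ℝ))
  have hev : ∀ᶠ B : ℕ in Filter.atTop, Real.log (Real.log (B : ℝ)) ^ k * Q ≤ Real.log B ∧ (y : ℝ) ≤ Real.log B ∧
      max Q 1 ≤ Real.log (Real.log (B : ℝ)) :=
    (hlim.eventually (ev_pow k Q hQ0)).and ((hlim.eventually_ge_atTop _).and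
      ((Real.tendsto_log_atTop.comp hlim).eventually_ge_atTop _))
  obtain ⟨n0, h0⟩ := Filter.eventually_atTop.1 hev
  obtain ⟨n1, h1⟩ := s_PAIR E 1
  obtain ⟨n2, h2⟩ := step1 E 1
  refine ⟨max n0 (max n1 (max n2 1)), fun B hB z hz1 hz2 A N hA hN s I hI => ?_⟩
  obtain ⟨b1, b2, b3⟩ := h0 B (le_trans (le_max_left _ _) hB)
  have p1 := h1 B (le_trans (le_trans (le_max_left _ _) (le_max_right _ _)) hB)
  have p2 := h2 B (le_trans (le_trans (le_trans (le_max_left _ _) (le_max_right _ _)) (le_max_right _ _)) hB)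
  have hB1 : 1 ≤ B := le_trans (le_trans (le_trans (le_max_right _ _) (le_max_right _ _)) (le_max_right _ _)) hB
  have hBr : (1 : ℝ) ≤ B := by exact_mod_cast hB1
  set L := Real.log (B : ℝ) with hL
  set l := Real.log L with hl
  have hL3 : 3 ≤ L := hyr.trans b2
  have hl1 : 1 ≤ l := (le_max_right _ _).trans b3
  have hlQ : Q ≤ l := (le_max_left _ _).trans b3
  have hyz : y ≤ z := by exact_mod_cast b2.trans hz1
  have hz3 : 3 ≤ z := hy3.trans hyz
  have hzr : (3 : ℝ) ≤ z := by exact_mod_cast hz3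
  have hAr : (1 : ℝ) ≤ A := (one_le_pow₀ hl1).trans hA
  have hA1 : 1 ≤ A := by exact_mod_cast hAr
  have hyE : (y : ℝ) ≤ L ^ E := le_trans (by exact_mod_cast hyz) hz2
  set M := (Vz z)⁻¹ with hM
  have hM1 : 1 ≤ M := Vz_inv_one z
  have hMc : M ≤ c * l := by
    have g1 := hC z hz3
    have g2 : Real.log z ≤ E * l := by
      have := Real.log_le_log (by linarith) hz2
      rwa [Real.log_pow] at this
    calc M ≤ C * Real.log z := g1
      _ ≤ C * (E * l) := mul_le_mul_of_nonneg_left g2 (by linarith)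
      _ ≤ c * l := by
          rw [hc]
          have : 0 ≤ C * l := by positivity
          nlinarith
  have hMk : M ^ k ≤ c ^ k * l ^ k := by
    rw [← mul_pow]
    exact pow_le_pow_left₀ (by linarith) hMc k
  have hMkL : M ^ k * Q ≤ c ^ k * L := by
    calc M ^ k * Q ≤ (c ^ k * l ^ k) * Q := mul_le_mul_of_nonneg_right hMk hQ0.le
      _ = c ^ k * (l ^ k * Q) := by ring
      _ ≤ _ := mul_le_mul_of_nonneg_left b1 (by linarith)
  have hMkA : M ^ k * Q ≤ c ^ k * A := by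
    calc M ^ k * Q ≤ (c ^ k * l ^ k) * l := mul_le_mul hMk hlQ hQ0.le (by positivity)
      _ = c ^ k * l ^ (k + 1) := by ring
      _ ≤ _ := mul_le_mul_of_nonneg_left hA (by linarith)
  have hML : M ^ k / L ≤ c ^ k / Q := by
    rw [div_le_div_iff₀ (by linarith) hQ0]
    exact hMkL
  have hMA : M ^ k / A ≤ c ^ k / Q := by
    rw [div_le_div_iff₀ (by linarith) hQ0]
    exact hMkA
  have hcQ : c ^ k / Q * (24 * k * 2 ^ k / ε + 2) = 1 := by
    rw [hQ]
    field_simp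
  have hcQ0 : 0 < c ^ k / Q := by positivity
  set η := 1 / L + M / A with hη
  have hη0 : 0 ≤ η := by positivity
  have hMle : M ≤ M ^ k := le_self_pow₀ hM1 (by omega)
  have hη1 : η ≤ 1 := by
    have g1 : 1 / L ≤ 1 / 2 := by
      rw [div_le_div_iff₀ (by linarith) (by norm_num)]
      linarith
    have g2 : M / A ≤ c ^ k / Q := (div_le_div_of_nonneg_right hMle (by linarith)).trans hMA
    have g3 : c ^ k / Q ≤ 1 / 2 := by
      have : 0 ≤ c ^ k / Q * (24 * k * 2 ^ k / ε) := by positivity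
      linarith
    linarith
  have hyE' : ∀ w : ℕ, (w = y ∨ w = z) → 1 ≤ w ∧ (w : ℝ) ≤ L ^ E ∧ (Vz w)⁻¹ ≤ M := by
    rintro w (rfl | rfl)
    · exact ⟨by omega, hyE, Vz_mono hyz⟩
    · exact ⟨by omega, hz2, le_rfl⟩
  have hP : ∀ w w' : ℕ, (w = y ∨ w = z) → (w' = y ∨ w' = z) → ∀ t t' i i' : ℕ, i ≠ i' →
      |PP A B w w' t t' i i' - A * B * Gw (min w w') ((i : ℤ) - i') ((t : ℤ) - t')| ≤ A * B * η := by
    intro w w' hw hw' t t' i i' hii
    obtain ⟨w1, w2, w3⟩ := hyE' w hw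
    obtain ⟨w4, w5, w6⟩ := hyE' w' hw'
    have g := p1 w w' w1 w4 w2 w5 A t t' i i' hii
    unfold PP
    refine g.trans ?_
    have g2 : (Vz (min w w'))⁻¹ ≤ M := (Vz_mono (min_le_left _ _)).trans w3
    have e : (A : ℝ) * B * η = A * B / L ^ 1 + B * M := by
      rw [hη]
      field_simp
    rw [e]
    have := mul_le_mul_of_nonneg_left g2 (show (0 : ℝ) ≤ B by linarith)
    linarith
  have hd : ∀ w : ℕ, (w = y ∨ w = z) → ∀ t i : ℕ, PP A B w w t t i i ≤ A * B * (2 * M) := by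
    intro w hw t i
    obtain ⟨w1, w2, w3⟩ := hyE' w hw
    unfold PP
    have g : ∀ a ∈ Icc 1 A, ∑ b ∈ Icc 1 B, lamz w (t + a * i + b) * lamz w (t + a * i + b) ≤ B * (2 * M) := by
      intro a _
      have g1 := (abs_le.1 (p2 w w w1 w1 w2 w2 (t + a * i) (t + a * i))).2
      have e : ∏ q ∈ pz (min w w), hq q (((t + a * i : ℕ) : ℤ) - ((t + a * i : ℕ) : ℤ)) = (Vz w)⁻¹ := by
        rw [min_self, sub_self]
        unfold Vz
        rw [← prod_inv_distrib]
        apply prod_congr rfl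
        intro q _
        unfold hq
        rw [if_pos (dvd_zero _)]
      rw [e] at g1
      have g2 : (B : ℝ) * (Vz w)⁻¹ ≤ B * M := mul_le_mul_of_nonneg_left w3 (by linarith)
      have g3 : (B : ℝ) / L ^ 1 ≤ B * M := by
        rw [pow_one]
        calc (B : ℝ) / L ≤ B / 1 := div_le_div_of_nonneg_left (by linarith) (by norm_num) (by linarith)
          _ = B * 1 := by ring
          _ ≤ B * M := mul_le_mul_of_nonneg_left hM1 (by linarith)
      linarith
    refine (sum_le_sum g).trans (le_of_eq ?_)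
    rw [sum_const, Nat.card_Icc, Nat.add_sub_cancel, nsmul_eq_mul]
    ring
  refine (main_ineq k k' y z A B N hkk (by omega) (by exact_mod_cast hy3k) hyz hA1 hB1 s I hI M η le_rfl hη0 hη1 hP hd).trans ?_
  have hN0 : (0 : ℝ) < N := by linarith
  have q1 : (2 : ℝ) * (2 * M) ^ k ≤ ε / 3 * N := by
    have g1 : c ^ k / Q * (24 * k * 2 ^ k / ε) ≤ 1 := by linarith
    have g2 : (2 : ℝ) * (2 * M) ^ k = 2 * 2 ^ k * (M ^ k / L) * L := by
      rw [mul_pow]
      field_simp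
    rw [g2]
    have g3 : (2 : ℝ) * 2 ^ k * (M ^ k / L) ≤ ε / 3 := by
      calc (2 : ℝ) * 2 ^ k * (M ^ k / L) ≤ 2 * 2 ^ k * (c ^ k / Q) := mul_le_mul_of_nonneg_left hML (by positivity)
        _ ≤ (8 * k) * 2 ^ k * (c ^ k / Q) := by
            apply mul_le_mul_of_nonneg_right _ hcQ0.le
            apply mul_le_mul_of_nonneg_right _ (by positivity)
            linarith
        _ = (c ^ k / Q * (24 * k * 2 ^ k / ε)) * (ε / 3) := by
            field_simp
            ring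
        _ ≤ 1 * (ε / 3) := mul_le_mul_of_nonneg_right g1 (by positivity)
        _ = _ := one_mul _
    exact mul_le_mul g3 hN (by linarith) (by positivity)
  have q2 : 4 * (((k' : ℝ) + 1) * η * (2 * M) ^ k') ≤ ε / 3 := by
    have e1 : (k' : ℝ) + 1 = k := by rw [hkk]; push_cast; rfl
    have g1 : η * M ^ k' ≤ 2 * (c ^ k / Q) := by
      have e2 : η * M ^ k' = M ^ k' / L + M ^ k / A := by
        rw [hη, hkk, pow_succ]
        ring
      have g2 : M ^ k' / L ≤ M ^ k / L := by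
        apply div_le_div_of_nonneg_right _ (by linarith)
        exact pow_le_pow_right₀ hM1 (by omega)
      rw [e2]
      linarith
    have g3 : (2 : ℝ) ^ k' ≤ 2 ^ k := pow_le_pow_right₀ (by norm_num) (by omega)
    have g0 : 0 ≤ η * M ^ k' := by positivity
    rw [e1, mul_pow]
    calc 4 * ((k : ℝ) * η * (2 ^ k' * M ^ k')) = 4 * k * (2 ^ k' * (η * M ^ k')) := by ring
      _ ≤ 4 * k * (2 ^ k * (2 * (c ^ k / Q))) := by
          apply mul_le_mul_of_nonneg_left _ (by positivity)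
          exact mul_le_mul g3 g1 g0 (by positivity)
      _ = (c ^ k / Q * (24 * k * 2 ^ k / ε)) * (ε / 3) := by
          field_simp
          ring
      _ ≤ 1 * (ε / 3) := by
          apply mul_le_mul_of_nonneg_right _ (by positivity)
          linarith
      _ = _ := one_mul _
  have hP0 : (0 : ℝ) ≤ (A * B : ℝ) ^ k := by positivity
  calc _ ≤ (A * B : ℝ) ^ k * (N * (ε / 3 * N) + N ^ 2 * (ε / 3) + N ^ 2 * (ε / 3)) := by
        apply mul_le_mul_of_nonneg_left _ hP0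
        apply add_le_add (add_le_add _ _) _
        · exact mul_le_mul_of_nonneg_left q1 hN0.le
        · exact mul_le_mul_of_nonneg_left q2 (by positivity)
        · exact mul_le_mul_of_nonneg_left hyp (by positivity)
    _ = _ := by ring

theorem s_T2 (_h : Pool.Agent.L7h24.AV.S_PAIR) : Pool.Agent.L7h24.AV.S_T2 := s_T2'

end Pool.Agent.L7h87.AV
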