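import Pool.Agent.L7h24.AV.Stm
import Pool.Agent.H373R2.T7.LamZ2
import Pool.Agent.H373R2.T7.SysCount

/-!
# Project AP, part PAIR: pairs of sieve weights at two linear forms, on average over the slope
-/

set_option autoImplicit false

namespace Pool.Agent.L7h87.AV

open Finset
open Pool.Agent.H373R2.T7
open Pool.Agent.L7h24.AV (hq Gw)

/-- one solution modulo a prime -/
lemma card_lin (σ r : ℤ) (p : ℕ) (hp : p.Prime) (hr : ¬ (p : ℤ) ∣ r) :
    ((range p).filter (fun x : ℕ => (p : ℤ) ∣ σ + x * r)).card = 1 := by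
  have : Fact p.Prime := ⟨hp⟩
  have hr0 : (r : ZMod p) ≠ 0 := by
    intro h
    exact hr ((ZMod.intCast_zmod_eq_zero_iff_dvd r p).1 h)
  rw [card_eq_one]
  refine ⟨(-(σ : ZMod p) * (r : ZMod p)⁻¹).val, ?_⟩
  ext x
  rw [mem_filter, mem_range, mem_singleton]
  have key : (p : ℤ) ∣ σ + x * r ↔ (x : ZMod p) = -(σ : ZMod p) * (r : ZMod p)⁻¹ := by
    rw [← ZMod.intCast_zmod_eq_zero_iff_dvd]
    push_cast
    constructor
    · intro h
      rw [eq_mul_inv_iff_mul_eq₀ hr0]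
      linear_combination h
    · intro h
      rw [eq_mul_inv_iff_mul_eq₀ hr0] at h
      linear_combination h
  rw [key]
  constructor
  · rintro ⟨h1, h2⟩
    rw [← h2, ZMod.val_natCast_of_lt h1]
  · rintro rfl
    exact ⟨ZMod.val_lt _, ZMod.natCast_zmod_val _⟩

lemma card_cls (n p : ℕ) (hp : p.Prime) : ((range p).filter (fun r : ℕ => p ∣ n + r)).card = 1 := by
  rw [← card_lin (n : ℤ) 1 p hp (by
    intro h
    have := Int.natAbs_dvd_natAbs.2 h
    simp only [Int.natAbs_natCast, Int.natAbs_one] at this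
    exact hp.one_lt.ne' (Nat.dvd_one.1 this))]
  congr 1
  apply filter_congr
  intro r _
  rw [mul_one, ← Int.natCast_dvd_natCast]
  push_cast
  rfl

/-- the conditions of a pair -/
def QQ (w w' n n' : ℕ) (p b : ℕ) : Prop := (p ≤ w ∧ p ∣ n + b) ∨ (p ≤ w' ∧ p ∣ n' + b)

lemma QQ_per (w w' n n' p b : ℕ) : QQ w w' n n' p b ↔ QQ w w' n n' p (b % p) := by
  have key : ∀ k : ℕ, p ∣ k + b ↔ p ∣ k + b % p := by
    intro k
    have h : k + b ≡ k + b % p [MOD p] := Nat.ModEq.add_left k (Nat.mod_modEq b p).symm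
    exact h.dvd_iff dvd_rfl
  unfold QQ
  rw [key n, key n']

lemma nuB_two (w w' n n' p : ℕ) (hp : p.Prime) : nuB (QQ w w' n n') p ≤ 2 := by
  classical
  unfold nuB
  calc _ ≤ ((range p).filter (fun r : ℕ => p ∣ n + r) ∪ (range p).filter (fun r : ℕ => p ∣ n' + r)).card := by
        apply card_le_card
        intro r hr
        rw [mem_filter] at hr
        rw [mem_union, mem_filter, mem_filter]
        rcases hr.2 with h | h
        · exact Or.inl ⟨hr.1, h.2⟩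
        · exact Or.inr ⟨hr.1, h.2⟩
    _ ≤ _ := card_union_le _ _
    _ = 2 := by rw [card_cls n p hp, card_cls n' p hp]

lemma nuB_large (w w' n n' p : ℕ) (hp : p.Prime) (h1 : ¬ p ≤ min w w') (h2 : p ≤ max w w') :
    nuB (QQ w w' n n') p = 1 := by
  classical
  unfold nuB
  rw [le_min_iff, not_and_or] at h1
  rw [le_max_iff] at h2
  by_cases h : p ≤ w
  · have h' : ¬ p ≤ w' := by tauto
    rw [← card_cls n p hp]
    congr 1
    ext r
    simp [QQ, h, h']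
  · have h' : p ≤ w' := by tauto
    rw [← card_cls n' p hp]
    congr 1
    ext r
    simp [QQ, h, h']

lemma nuB_small (w w' n n' p : ℕ) (hp : p.Prime) (h1 : p ≤ min w w') :
    (nuB (QQ w w' n n') p : ℝ) = if (p : ℤ) ∣ (n : ℤ) - n' then 1 else 2 := by
  classical
  unfold nuB
  rw [le_min_iff] at h1
  have e : ((range p).filter (fun r => QQ w w' n n' p r)) =
      (range p).filter (fun r : ℕ => p ∣ n + r) ∪ (range p).filter (fun r : ℕ => p ∣ n' + r) := by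
    rw [← filter_or]
    ext r
    simp [QQ, h1.1, h1.2]
  have e' : ((range p).filter (fun r => QQ w w' n n' p r)).card =
      ((range p).filter (fun r : ℕ => p ∣ n + r) ∪ (range p).filter (fun r : ℕ => p ∣ n' + r)).card := by
    rw [← e]
  rw [show ((((range p).filter (fun r => QQ w w' n n' p r)).card : ℕ) : ℝ) =
    (((range p).filter (fun r : ℕ => p ∣ n + r) ∪ (range p).filter (fun r : ℕ => p ∣ n' + r)).card : ℝ) by
      rw [← e]]
  by_cases hd : (p : ℤ) ∣ (n : ℤ) - n'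
  · rw [if_pos hd]
    have e2 : (range p).filter (fun r : ℕ => p ∣ n + r) = (range p).filter (fun r : ℕ => p ∣ n' + r) := by
      apply filter_congr
      intro r _
      rw [← Int.natCast_dvd_natCast, ← Int.natCast_dvd_natCast]
      push_cast
      constructor
      · intro h
        have := dvd_sub h hd
        rwa [show (n : ℤ) + r - (n - n') = n' + r by ring] at this
      · intro h
        have := dvd_add h hd
        rwa [show (n' : ℤ) + r + (n - n') = n + r by ring] at this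
    rw [e2, union_self, card_cls n' p hp, Nat.cast_one]
  · rw [if_neg hd, card_union_of_disjoint, card_cls n p hp, card_cls n' p hp]
    · norm_num
    · rw [disjoint_left]
      intro r hr hr'
      rw [mem_filter] at hr hr'
      apply hd
      have h3 : (p : ℤ) ∣ ((n + r : ℕ) : ℤ) := Int.natCast_dvd_natCast.2 hr.2
      have h4 : (p : ℤ) ∣ ((n' + r : ℕ) : ℤ) := Int.natCast_dvd_natCast.2 hr'.2
      have := dvd_sub h3 h4
      push_cast at this
      rwa [show (n : ℤ) + r - (n' + r) = n - n' by ring] at this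

lemma one_sub_pos {q : ℕ} (h : q.Prime) : 0 < 1 - 1 / (q : ℝ) := by
  have hp2 : (2 : ℝ) ≤ q := by exact_mod_cast h.two_le
  rw [sub_pos, div_lt_one (by linarith)]; linarith

lemma pz_mono {m M : ℕ} (h : m ≤ M) : pz m ⊆ pz M := by
  intro p hp
  rw [mem_pz] at hp ⊢
  exact ⟨hp.1.trans h, hp.2⟩

lemma loc_prod (w w' n n' : ℕ) :
    (∏ p ∈ pz (max w w'), (1 - (nuB (QQ w w' n n') p : ℝ) / p)) * ((Vz w)⁻¹ * (Vz w')⁻¹) =
      ∏ q ∈ pz (min w w'), hq q ((n : ℤ) - n') := by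
  classical
  have hV : Vz w * Vz w' = Vz (min w w') * Vz (max w w') := by
    rcases le_total w w' with h | h
    · rw [min_eq_left h, max_eq_right h]
    · rw [min_eq_right h, max_eq_left h, mul_comm]
  have hsub : pz (min w w') ⊆ pz (max w w') := pz_mono min_le_max
  have e1 := prod_sdiff (f := fun p : ℕ => (1 - (nuB (QQ w w' n n') p : ℝ) / p)) hsub
  have e2 : Vz (max w w') = (∏ p ∈ pz (max w w') \ pz (min w w'), (1 - 1 / (p : ℝ))) * Vz (min w w') := by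
    unfold Vz
    rw [prod_sdiff hsub]
  have e3 : ∏ p ∈ pz (max w w') \ pz (min w w'), (1 - (nuB (QQ w w' n n') p : ℝ) / p) =
      ∏ p ∈ pz (max w w') \ pz (min w w'), (1 - 1 / (p : ℝ)) := by
    apply prod_congr rfl
    intro p hp
    rw [mem_sdiff, mem_pz, mem_pz] at hp
    rw [nuB_large w w' n n' p hp.1.2 (fun h => hp.2 ⟨h, hp.1.2⟩) hp.1.1, Nat.cast_one]
  set D := ∏ p ∈ pz (max w w') \ pz (min w w'), (1 - 1 / (p : ℝ)) with hD
  have hD0 : D ≠ 0 := by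
    rw [hD, prod_ne_zero_iff]
    intro p hp
    rw [mem_sdiff, mem_pz] at hp
    exact (one_sub_pos hp.1.2).ne'
  have hm0 := (Vz_pos (min w w')).ne'
  rw [← e1, e3, ← mul_inv, hV, e2]
  have e4 : (∏ p ∈ pz (min w w'), (1 - (nuB (QQ w w' n n') p : ℝ) / p)) *
      ((Vz (min w w'))⁻¹) ^ 2 = ∏ q ∈ pz (min w w'), hq q ((n : ℤ) - n') := by
    unfold Vz
    rw [← prod_inv_distrib, ← prod_pow, ← prod_mul_distrib]
    apply prod_congr rfl
    intro p hp
    rw [mem_pz] at hp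
    have h0 := (one_sub_pos hp.2).ne'
    rw [nuB_small w w' n n' p hp.2 hp.1]
    unfold hq
    by_cases hd : (p : ℤ) ∣ (n : ℤ) - n'
    · rw [if_pos hd, if_pos hd]
      field_simp
    · rw [if_neg hd, if_neg hd]
  rw [← e4]
  field_simp

theorem step1 (E U : ℕ) : ∃ B0 : ℕ, ∀ B : ℕ, B0 ≤ B → ∀ w w' : ℕ, 1 ≤ w → 1 ≤ w' →
    (w : ℝ) ≤ Real.log B ^ E → (w' : ℝ) ≤ Real.log B ^ E → ∀ n n' : ℕ,
    |∑ b ∈ Icc 1 B, lamz w (n + b) * lamz w' (n' + b) -
      B * ∏ q ∈ pz (min w w'), hq q ((n : ℤ) - n')| ≤ B / Real.log B ^ U := by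
  classical
  obtain ⟨N0, h0⟩ := sys_count 2 E (U + 2) (by norm_num)
  obtain ⟨N1, h1⟩ := Vz_inv_small E
  refine ⟨max N0 N1, fun B hB w w' hw hw' hwE hwE' n n' => ?_⟩
  have a1 := h1 B (le_trans (le_max_right _ _) hB)
  have v1 := a1 w hw hwE
  have v2 := a1 w' hw' hwE'
  have hM : 1 ≤ max w w' := le_max_of_le_left hw
  have hME : ((max w w' : ℕ) : ℝ) ≤ Real.log B ^ E := by
    rw [Nat.cast_max]
    exact max_le hwE hwE'
  have a0 := h0 B (le_trans (le_max_left _ _) hB) (max w w') hM hME (QQ w w' n n')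
    ⟨fun p b => QQ_per w w' n n' p b, fun p hp => nuB_two w w' n n' p hp⟩
  have hV1 : 0 < (Vz w)⁻¹ := inv_pos.2 (Vz_pos w)
  have hV2 : 0 < (Vz w')⁻¹ := inv_pos.2 (Vz_pos w')
  have hL1 : 1 ≤ Real.log B := by
    refine le_trans ?_ v1
    exact (one_le_inv₀ (Vz_pos w)).2 (Vz_le_one w)
  set L := Real.log B with hLd
  have hL0 : 0 < L := by linarith
  set cnt := ((((Icc 1 B).filter (fun n_1 : ℕ => ∀ p ∈ pz (max w w'), ¬ QQ w w' n n' p n_1)).card : ℕ) : ℝ) with hcnt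
  have e1 : ∑ b ∈ Icc 1 B, lamz w (n + b) * lamz w' (n' + b) = cnt * ((Vz w)⁻¹ * (Vz w')⁻¹) := by
    rw [hcnt, card_eq_sum_ones, Nat.cast_sum, sum_filter, sum_mul]
    apply sum_congr rfl
    intro b _
    unfold lamz
    have hiff : (∀ p ∈ pz (max w w'), ¬ QQ w w' n n' p b) ↔
        (∀ p ∈ pz w, ¬ p ∣ n + b) ∧ (∀ p ∈ pz w', ¬ p ∣ n' + b) := by
      unfold QQ
      constructor
      · intro h
        refine ⟨fun p hp hd => ?_, fun p hp hd => ?_⟩
        · rw [mem_pz] at hp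
          exact h p (mem_pz.2 ⟨le_max_of_le_left hp.1, hp.2⟩) (Or.inl ⟨hp.1, hd⟩)
        · rw [mem_pz] at hp
          exact h p (mem_pz.2 ⟨le_max_of_le_right hp.1, hp.2⟩) (Or.inr ⟨hp.1, hd⟩)
      · rintro ⟨h1, h2⟩ p hp (h3 | h3)
        · exact h1 p (mem_pz.2 ⟨h3.1, (mem_pz.1 hp).2⟩) h3.2
        · exact h2 p (mem_pz.2 ⟨h3.1, (mem_pz.1 hp).2⟩) h3.2
    by_cases c1 : ∀ p ∈ pz w, ¬ p ∣ n + b
    · by_cases c2 : ∀ p ∈ pz w', ¬ p ∣ n' + b
      · rw [if_pos c1, if_pos c2, if_pos (hiff.2 ⟨c1, c2⟩), Nat.cast_one, one_mul]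
      · rw [if_neg c2, if_neg (fun h => c2 (hiff.1 h).2), mul_zero]
        simp
    · rw [if_neg c1, if_neg (fun h => c1 (hiff.1 h).1), zero_mul]
      simp
  have e2 : (B : ℝ) * ∏ q ∈ pz (min w w'), hq q ((n : ℤ) - n') =
      (B * ∏ p ∈ pz (max w w'), (1 - (nuB (QQ w w' n n') p : ℝ) / p)) * ((Vz w)⁻¹ * (Vz w')⁻¹) := by
    rw [← loc_prod w w' n n']
    ring
  rw [e1, e2, ← sub_mul, abs_mul, abs_of_pos (mul_pos hV1 hV2)]
  calc _ ≤ (B / L ^ (U + 2)) * (L * L) := by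
        apply mul_le_mul a0 _ (mul_pos hV1 hV2).le (by positivity)
        exact mul_le_mul v1 v2 hV2.le hL0.le
    _ = B / L ^ U := by
        rw [pow_add]
        field_simp

theorem step2 (m A : ℕ) (r σ : ℤ) :
    |∑ a ∈ Icc 1 A, ∏ q ∈ pz m, hq q (σ + a * r) - A * Gw m r σ| ≤ (Vz m)⁻¹ := by
  classical
  set S := (pz m).filter (fun q : ℕ => ¬ (q : ℤ) ∣ r) with hS
  have hSp : ∀ q ∈ S, q.Prime := fun q hq' => (mem_pz.1 (mem_filter.1 hq').1).2
  have hSr : ∀ q ∈ S, ¬ (q : ℤ) ∣ r := fun q hq' => (mem_filter.1 hq').2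
  set al : ℕ → ℝ := fun q => (1 - 2 / (q : ℝ)) * ((1 - 1 / (q : ℝ))⁻¹) ^ 2 with hal
  set be : ℕ → ℝ := fun q => (1 / (q : ℝ)) * ((1 - 1 / (q : ℝ))⁻¹) ^ 2 with hbe
  have hal0 : ∀ q : ℕ, q.Prime → 0 ≤ al q := by
    intro q hq'
    have h2 : (2 : ℝ) ≤ q := by exact_mod_cast hq'.two_le
    have h3 : 0 ≤ 1 - 2 / (q : ℝ) := by
      rw [sub_nonneg, div_le_one (by linarith)]; exact h2
    exact mul_nonneg h3 (sq_nonneg _)
  have hbe0 : ∀ q : ℕ, 0 ≤ be q := fun q => by positivity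
  have hsum : ∀ q : ℕ, q.Prime → be q + al q = (1 - 1 / (q : ℝ))⁻¹ := by
    intro q hq'
    have h0 := (one_sub_pos hq').ne'
    have h1 : (q : ℝ) ≠ 0 := by exact_mod_cast hq'.ne_zero
    simp only [hal, hbe]
    have : (1 / (q : ℝ)) * ((1 - 1 / (q : ℝ))⁻¹) ^ 2 + (1 - 2 / (q : ℝ)) * ((1 - 1 / (q : ℝ))⁻¹) ^ 2 =
        (1 - 1 / (q : ℝ)) * ((1 - 1 / (q : ℝ))⁻¹) ^ 2 := by ring
    rw [this, sq, ← mul_assoc, mul_inv_cancel₀ h0, one_mul]
  have hone : ∀ q : ℕ, q.Prime → be q * (1 / (q : ℝ)) + al q = 1 := by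
    intro q hq'
    have h0 := (one_sub_pos hq').ne'
    have h1 : (q : ℝ) ≠ 0 := by exact_mod_cast hq'.ne_zero
    simp only [hal, hbe]
    have : (1 / (q : ℝ)) * ((1 - 1 / (q : ℝ))⁻¹) ^ 2 * (1 / (q : ℝ)) +
        (1 - 2 / (q : ℝ)) * ((1 - 1 / (q : ℝ))⁻¹) ^ 2 =
        ((1 - 1 / (q : ℝ)) * (1 - 1 / (q : ℝ))⁻¹) ^ 2 := by ring
    rw [this, mul_inv_cancel₀ h0, one_pow]
  have hhq : ∀ q : ℕ, q.Prime → ∀ x : ℤ, hq q x = be q * (if (q : ℤ) ∣ x then 1 else 0) + al q := by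
    intro q hq' x
    unfold hq
    by_cases hd : (q : ℤ) ∣ x
    · rw [if_pos hd, if_pos hd, mul_one, hsum q hq']
    · rw [if_neg hd, if_neg hd, mul_zero, zero_add]
  have hq0 : ∀ q : ℕ, q.Prime → ∀ x : ℤ, 0 ≤ hq q x := by
    intro q hq' x
    rw [hhq q hq' x]
    have := hal0 q hq'
    have := hbe0 q
    split_ifs <;> simp <;> linarith
  have hqle : ∀ q : ℕ, q.Prime → ∀ x : ℤ, hq q x ≤ (1 - 1 / (q : ℝ))⁻¹ := by
    intro q hq' x
    rw [hhq q hq' x, ← hsum q hq']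
    have := hbe0 q
    split_ifs <;> simp <;> linarith
  -- the product splits
  have hsplit : ∀ a : ℕ, ∏ q ∈ pz m, hq q (σ + a * r) = Gw m r σ * ∏ q ∈ S, hq q (σ + a * r) := by
    intro a
    rw [← prod_filter_mul_prod_filter_not (pz m) (fun q : ℕ => (q : ℤ) ∣ r)]
    congr 1
    unfold Gw
    apply prod_congr rfl
    intro q hq'
    rw [mem_filter] at hq'
    unfold hq
    have : (q : ℤ) ∣ σ + a * r ↔ (q : ℤ) ∣ σ :=
      dvd_add_left (dvd_mul_of_dvd_right hq'.2 (a : ℤ))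
    simp only [this]
  -- expansion
  have hexp : ∀ a : ℕ, ∏ q ∈ S, hq q (σ + a * r) = ∑ T ∈ S.powerset,
      ((∏ q ∈ T, be q) * ∏ q ∈ S \ T, al q) * (if ∀ q ∈ T, (q : ℤ) ∣ σ + a * r then 1 else 0) := by
    intro a
    rw [prod_congr rfl (fun q hq' => hhq q (hSp q hq') (σ + a * r)), prod_add]
    apply sum_congr rfl
    intro T _
    rw [prod_mul_distrib]
    have : ∏ q ∈ T, (if (q : ℤ) ∣ σ + a * r then (1 : ℝ) else 0) =
        if ∀ q ∈ T, (q : ℤ) ∣ σ + a * r then 1 else 0 := by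
      rw [prod_ite_zero]
      simp
    rw [this]
    ring
  have hcount : ∀ T ∈ S.powerset, |∑ a ∈ Icc 1 A, (if ∀ q ∈ T, (q : ℤ) ∣ σ + a * r then (1 : ℝ) else 0) -
      A * ∏ q ∈ T, (1 / (q : ℝ))| ≤ 1 := by
    intro T hT
    rw [mem_powerset] at hT
    have h := count_sys (fun p a => (p : ℤ) ∣ σ + a * r) A T (fun p hp => hSp p (hT hp)) 1 le_rfl
      (fun p hp hd => (hSp p (hT hp)).one_lt.ne' (Nat.dvd_one.1 hd)) 0
    have hc : ∀ p ∈ T, ((range p).filter (fun a : ℕ => (p : ℤ) ∣ σ + a * r)).card = 1 := fun p hp =>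
      card_lin σ r p (hSp p (hT hp)) (hSr p (hT hp))
    have e1 : ∏ p ∈ T, ((((range p).filter (fun a : ℕ => (p : ℤ) ∣ σ + a * r)).card : ℝ) / p) =
        ∏ p ∈ T, (1 / (p : ℝ)) := prod_congr rfl (fun p hp => by rw [hc p hp, Nat.cast_one])
    have e2 : ∏ p ∈ T, (((range p).filter (fun a : ℕ => (p : ℤ) ∣ σ + a * r)).card : ℝ) = 1 := by
      rw [prod_congr rfl (fun p hp => by rw [hc p hp, Nat.cast_one])]
      exact prod_const_one
    rw [e1, e2, Nat.cast_one, div_one] at h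
    have e3 : ∑ a ∈ Icc 1 A, (if ∀ q ∈ T, (q : ℤ) ∣ σ + a * r then (1 : ℝ) else 0) =
        (((Icc 1 A).filter (fun n => n ≡ 0 [MOD 1] ∧ ∀ p ∈ T, (p : ℤ) ∣ σ + ((n % p : ℕ) : ℤ) * r)).card : ℝ) := by
      rw [card_eq_sum_ones, Nat.cast_sum, sum_filter]
      apply sum_congr rfl
      intro a _
      have hiff : (∀ q ∈ T, (q : ℤ) ∣ σ + a * r) ↔
          (a ≡ 0 [MOD 1] ∧ ∀ p ∈ T, (p : ℤ) ∣ σ + ((a % p : ℕ) : ℤ) * r) := by
        have hk : ∀ q ∈ T, ((q : ℤ) ∣ σ + a * r ↔ (q : ℤ) ∣ σ + ((a % q : ℕ) : ℤ) * r) := by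
          intro q _
          have h5 : (q : ℤ) ∣ (a : ℤ) - ((a % q : ℕ) : ℤ) := by
            push_cast
            exact Int.dvd_self_sub_emod
          have h6 : σ + (a : ℤ) * r = (σ + ((a % q : ℕ) : ℤ) * r) + ((a : ℤ) - ((a % q : ℕ) : ℤ)) * r := by ring
          rw [h6]
          exact dvd_add_left (dvd_mul_of_dvd_left h5 r)
        constructor
        · intro h
          exact ⟨Nat.modEq_one, fun p hp => (hk p hp).1 (h p hp)⟩
        · rintro ⟨_, h⟩ p hp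
          exact (hk p hp).2 (h p hp)
      by_cases hh : ∀ q ∈ T, (q : ℤ) ∣ σ + a * r
      · rw [if_pos hh, if_pos (hiff.1 hh), Nat.cast_one]
      · rw [if_neg hh, if_neg (fun h => hh (hiff.2 h))]
    rw [e3]
    exact h
  have hG0 : 0 ≤ Gw m r σ := prod_nonneg fun q hq' => hq0 q (mem_pz.1 (mem_filter.1 hq').1).2 σ
  have hmain : |∑ a ∈ Icc 1 A, ∏ q ∈ S, hq q (σ + a * r) - A| ≤ ∏ q ∈ S, (1 - 1 / (q : ℝ))⁻¹ := by
    have e1 : ∑ a ∈ Icc 1 A, ∏ q ∈ S, hq q (σ + a * r) = ∑ T ∈ S.powerset,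
        ((∏ q ∈ T, be q) * ∏ q ∈ S \ T, al q) *
          ∑ a ∈ Icc 1 A, (if ∀ q ∈ T, (q : ℤ) ∣ σ + a * r then (1 : ℝ) else 0) := by
      rw [sum_congr rfl (fun a _ => hexp a), sum_comm]
      apply sum_congr rfl
      intro T _
      rw [mul_sum]
    have e2 : (A : ℝ) = ∑ T ∈ S.powerset,
        ((∏ q ∈ T, be q) * ∏ q ∈ S \ T, al q) * (A * ∏ q ∈ T, (1 / (q : ℝ))) := by
      have h3 : ∏ q ∈ S, (be q * (1 / (q : ℝ)) + al q) = 1 := by
        rw [prod_congr rfl (fun q hq' => hone q (hSp q hq'))]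
        exact prod_const_one
      rw [prod_add] at h3
      have h4 : (A : ℝ) = A * ∑ T ∈ S.powerset, (∏ q ∈ T, be q * (1 / (q : ℝ))) * ∏ q ∈ S \ T, al q := by
        rw [h3, mul_one]
      refine h4.trans ?_
      rw [mul_sum]
      apply sum_congr rfl
      intro T _
      rw [prod_mul_distrib]
      ring
    have e3 : ∏ q ∈ S, (1 - 1 / (q : ℝ))⁻¹ = ∑ T ∈ S.powerset, ((∏ q ∈ T, be q) * ∏ q ∈ S \ T, al q) := by
      rw [← prod_congr rfl (fun q hq' => hsum q (hSp q hq')), prod_add]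
    have hc0 : ∀ T ∈ S.powerset, 0 ≤ (∏ q ∈ T, be q) * ∏ q ∈ S \ T, al q := by
      intro T _
      apply mul_nonneg (prod_nonneg fun q _ => hbe0 q)
      exact prod_nonneg fun q hq' => hal0 q (hSp q (mem_sdiff.1 hq').1)
    rw [e1, e3]
    have e4 : ∑ T ∈ S.powerset, ((∏ q ∈ T, be q) * ∏ q ∈ S \ T, al q) *
          ∑ a ∈ Icc 1 A, (if ∀ q ∈ T, (q : ℤ) ∣ σ + a * r then (1 : ℝ) else 0) - (A : ℝ) =
        ∑ T ∈ S.powerset, ((∏ q ∈ T, be q) * ∏ q ∈ S \ T, al q) *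
          ∑ a ∈ Icc 1 A, (if ∀ q ∈ T, (q : ℤ) ∣ σ + a * r then (1 : ℝ) else 0) -
        ∑ T ∈ S.powerset, ((∏ q ∈ T, be q) * ∏ q ∈ S \ T, al q) * (A * ∏ q ∈ T, (1 / (q : ℝ))) := by
      rw [← e2]
    rw [e4, ← sum_sub_distrib]
    refine (abs_sum_le_sum_abs _ _).trans (sum_le_sum fun T hT => ?_)
    rw [← mul_sub, abs_mul, abs_of_nonneg (hc0 T hT)]
    exact (mul_le_mul_of_nonneg_left (hcount T hT) (hc0 T hT)).trans (by rw [mul_one])
  rw [sum_congr rfl (fun a _ => hsplit a), ← mul_sum, mul_comm (A : ℝ) _, ← mul_sub, abs_mul, abs_of_nonneg hG0]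
  have hGle : Gw m r σ ≤ ∏ q ∈ (pz m).filter (fun q : ℕ => (q : ℤ) ∣ r), (1 - 1 / (q : ℝ))⁻¹ := by
    unfold Gw
    apply prod_le_prod
    · intro q hq'
      exact hq0 q (mem_pz.1 (mem_filter.1 hq').1).2 σ
    · intro q hq'
      exact hqle q (mem_pz.1 (mem_filter.1 hq').1).2 σ
  have hpos : 0 ≤ ∏ q ∈ (pz m).filter (fun q : ℕ => (q : ℤ) ∣ r), (1 - 1 / (q : ℝ))⁻¹ := hG0.trans hGle
  calc _ ≤ (∏ q ∈ (pz m).filter (fun q : ℕ => (q : ℤ) ∣ r), (1 - 1 / (q : ℝ))⁻¹) *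
        ∏ q ∈ S, (1 - 1 / (q : ℝ))⁻¹ := mul_le_mul hGle hmain (abs_nonneg _) hpos
    _ = (Vz m)⁻¹ := by
        unfold Vz
        rw [← prod_inv_distrib, hS, prod_filter_mul_prod_filter_not]

theorem s_PAIR : Pool.Agent.L7h24.AV.S_PAIR := by
  intro E U
  obtain ⟨B0, h0⟩ := step1 E U
  refine ⟨B0, fun B hB w w' hw hw' hwE hwE' A t t' i i' _ => ?_⟩
  have h1 := h0 B hB w w' hw hw' hwE hwE'
  set m := min w w' with hm
  have e1 : ∑ a ∈ Icc 1 A, ∑ b ∈ Icc 1 B, lamz w (t + a * i + b) * lamz w' (t' + a * i' + b) -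
      A * B * Gw m ((i : ℤ) - i') ((t : ℤ) - t') =
      ∑ a ∈ Icc 1 A, (∑ b ∈ Icc 1 B, lamz w (t + a * i + b) * lamz w' (t' + a * i' + b) -
        B * ∏ q ∈ pz m, hq q (((t + a * i : ℕ) : ℤ) - ((t' + a * i' : ℕ) : ℤ))) +
      B * (∑ a ∈ Icc 1 A, ∏ q ∈ pz m, hq q (((t : ℤ) - t') + a * ((i : ℤ) - i')) -
        A * Gw m ((i : ℤ) - i') ((t : ℤ) - t')) := by
    have e2 : ∀ a ∈ Icc 1 A, ∏ q ∈ pz m, hq q (((t + a * i : ℕ) : ℤ) - ((t' + a * i' : ℕ) : ℤ)) =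
        ∏ q ∈ pz m, hq q (((t : ℤ) - t') + a * ((i : ℤ) - i')) := by
      intro a _
      apply prod_congr rfl
      intro q _
      congr 1
      push_cast
      ring
    rw [sum_sub_distrib, ← mul_sum, sum_congr rfl e2]
    ring
  rw [e1]
  refine (abs_add_le _ _).trans (add_le_add ?_ ?_)
  · refine (abs_sum_le_sum_abs _ _).trans ?_
    refine (sum_le_sum fun a _ => h1 (t + a * i) (t' + a * i')).trans ?_
    rw [sum_const, Nat.card_Icc, nsmul_eq_mul]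
    simp only [add_tsub_cancel_right]
    rw [mul_div_assoc]
  · rw [abs_mul, Nat.abs_cast]
    exact mul_le_mul_of_nonneg_left (step2 m A _ _) (Nat.cast_nonneg _)

end Pool.Agent.L7h87.AV
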